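import Pool.Agent.H958.RL.Stm
import Pool.Graph.R_seed8.W571.RD.Pind

/-!
# BLK: one block of the growth process
-/

set_option autoImplicit false

namespace Pool.Agent.H764.RL.Blk

open Finset
open scoped Classical
open Pool.Agent.W830.RD (Om Pr)
open Pool.Agent.W571.RD.Pind
open Pool.Agent.H958.RL (nb S_BLK)

noncomputable section

variable {α : Type} [DecidableEq α]

omit [DecidableEq α] in
theorem EX_add (p : ℝ) (W : Finset α) (F G : Finset α → ℝ) :
    EX p W (fun E => F E + G E) = EX p W F + EX p W G := by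
  unfold EX
  rw [← Finset.sum_add_distrib]
  refine Finset.sum_congr rfl fun E _ => ?_
  ring

omit [DecidableEq α] in
theorem EX_mono {p : ℝ} (hp : 0 < p) (hp1 : p < 1) (W : Finset α) {F G : Finset α → ℝ}
    (h : ∀ E, F E ≤ G E) : EX p W F ≤ EX p W G := by
  unfold EX
  refine Finset.sum_le_sum fun E _ => mul_le_mul_of_nonneg_left (h E) ?_
  exact mul_nonneg (pow_nonneg hp.le _) (pow_nonneg (by linarith) _)

/-- independence for products -/
theorem prods (p : ℝ) (W : Finset α) {ι : Type} (s : Finset ι) (S : ι → Finset α)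
    (g : ι → Finset α → ℝ) (hd : ∀ i ∈ s, ∀ j ∈ s, i ≠ j → Disjoint (S i) (S j)) :
    EX p W (fun E => ∏ i ∈ s, g i (E ∩ S i)) = ∏ i ∈ s, EX p W (fun E => g i (E ∩ S i)) := by
  induction s using Finset.induction_on with
  | empty =>
    simp only [Finset.prod_empty]
    exact EX_one p _
  | insert a s ha ih =>
    rw [Finset.prod_insert ha]
    rw [← ih fun i hi j hj hij => hd i (Finset.mem_insert_of_mem hi) j
      (Finset.mem_insert_of_mem hj) hij]
    have hdis : Disjoint (S a) (s.biUnion S) := by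
      rw [Finset.disjoint_biUnion_right]
      intro i hi
      exact hd a (Finset.mem_insert_self a s) i (Finset.mem_insert_of_mem hi)
        (fun h => ha (h ▸ hi))
    have h1 := indep p W (S a) (s.biUnion S) hdis (g a) (fun E => ∏ i ∈ s, g i (E ∩ S i))
    have h2 : ∀ E : Finset α, ∀ i ∈ s, (E ∩ s.biUnion S) ∩ S i = E ∩ S i := by
      intro E i hi
      rw [Finset.inter_assoc, Finset.inter_eq_right.2 (Finset.subset_biUnion_of_mem S hi)]
    have h3 : ∀ E : Finset α, ∏ i ∈ s, g i ((E ∩ s.biUnion S) ∩ S i) =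
        ∏ i ∈ s, g i (E ∩ S i) := fun E =>
      Finset.prod_congr rfl fun i hi => by rw [h2 E i hi]
    simp only [h3] at h1
    rw [← h1]
    refine EX_congr p _ _ _ fun E _ => ?_
    rw [Finset.prod_insert ha]

theorem exp_quad {y : ℝ} (hy : 0 ≤ y) : Real.exp (-y) ≤ 1 - y + y ^ 2 / 2 := by
  have h1 := Real.quadratic_le_exp_of_nonneg hy
  have h2 : 0 < 1 + y + y ^ 2 / 2 := by positivity
  rw [Real.exp_neg]
  have h3 : (Real.exp y)⁻¹ ≤ (1 + y + y ^ 2 / 2)⁻¹ := inv_anti₀ h2 h1
  refine h3.trans ?_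
  rw [inv_le_iff_one_le_mul₀ h2]
  nlinarith [sq_nonneg (y ^ 2)]

/-- the edges from `F` to `v` -/
def Sv {n : ℕ} (F : Finset (Fin n)) (v : Fin n) : Finset (Fin n × Fin n) :=
  F.image (fun u => (u, v))

theorem mem_Sv {n : ℕ} {F : Finset (Fin n)} {v : Fin n} {e : Fin n × Fin n} :
    e ∈ Sv F v ↔ e.1 ∈ F ∧ e.2 = v := by
  unfold Sv
  rw [Finset.mem_image]
  constructor
  · rintro ⟨u, hu, rfl⟩
    exact ⟨hu, rfl⟩
  · rintro ⟨h1, h2⟩
    refine ⟨e.1, h1, ?_⟩
    rw [← h2]

theorem card_Sv {n : ℕ} (F : Finset (Fin n)) (v : Fin n) : (Sv F v).card = F.card := by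
  unfold Sv
  rw [Finset.card_image_of_injective]
  intro a b h
  exact (Prod.ext_iff.1 h).1

/-- the vertices of the block -/
def Vb (n s L : ℕ) : Finset (Fin n) := univ.filter (fun v : Fin n => s ≤ (v : ℕ) ∧ (v : ℕ) < s + L)

theorem card_Vb {n s L : ℕ} (h : s + L ≤ n) : (Vb n s L).card = L := by
  have h1 : (Vb n s L).map Fin.valEmbedding = Finset.Ico s (s + L) := by
    ext x
    rw [Finset.mem_map, Finset.mem_Ico]
    constructor
    · rintro ⟨v, hv, rfl⟩
      exact (Finset.mem_filter.1 hv).2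
    · rintro ⟨h2, h3⟩
      exact ⟨⟨x, by omega⟩, Finset.mem_filter.2 ⟨Finset.mem_univ _, h2, h3⟩, rfl⟩
  rw [← Finset.card_map Fin.valEmbedding, h1, Nat.card_Ico]
  omega

theorem nb_eq {n : ℕ} (E : Finset (Fin n × Fin n)) (F : Finset (Fin n)) (s L : ℕ) :
    nb E F s (s + L) = ((Vb n s L).filter (fun v => ¬ E ∩ Sv F v = ∅)).card := by
  unfold nb Vb
  congr 1
  ext v
  rw [Finset.mem_filter, Finset.mem_filter, Finset.mem_filter]
  have h1 : (∃ u ∈ F, (u, v) ∈ E) ↔ ¬ E ∩ Sv F v = ∅ := by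
    rw [← Ne, ← Finset.nonempty_iff_ne_empty]
    constructor
    · rintro ⟨u, hu, he⟩
      exact ⟨(u, v), Finset.mem_inter.2 ⟨he, mem_Sv.2 ⟨hu, rfl⟩⟩⟩
    · rintro ⟨e, he⟩
      obtain ⟨h1, h2⟩ := Finset.mem_inter.1 he
      obtain ⟨h3, h4⟩ := mem_Sv.1 h2
      refine ⟨e.1, h3, ?_⟩
      rw [← h4]
      exact h1
  rw [h1]
  tauto

theorem main : S_BLK := by
  intro p f η n s L F hp hp1 hf hη hη2 hfF hFs hsL hpf
  set x : ℝ := 1 - η with hx
  have hx0 : 0 < x := by rw [hx]; linarith
  have hx1 : x < 1 := by rw [hx]; linarith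
  set P : ℝ := L * p * f with hP
  have hL0 : (0 : ℝ) ≤ L := Nat.cast_nonneg L
  have hP0 : 0 ≤ P := by rw [hP]; positivity
  set t : ℝ := (1 - 2 * η) * P with ht
  have ht0 : 0 ≤ t := mul_nonneg (by linarith) hP0
  -- the generating function
  let g : Finset (Fin n × Fin n) → ℝ := fun A => if A = ∅ then 1 else x
  have hg : ∀ E, ∏ v ∈ Vb n s L, g (E ∩ Sv F v) = x ^ nb E F s (s + L) := by
    intro E
    rw [nb_eq]
    simp only [g]
    rw [Finset.prod_ite, Finset.prod_const, Finset.prod_const, one_pow, one_mul]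
  have hdis : ∀ i ∈ Vb n s L, ∀ j ∈ Vb n s L, i ≠ j → Disjoint (Sv F i) (Sv F j) := by
    intro i _ j _ hij
    rw [Finset.disjoint_left]
    intro e h1 h2
    exact hij ((mem_Sv.1 h1).2.symm.trans (mem_Sv.1 h2).2)
  have h1 := prods p (Om n) (Vb n s L) (Sv F) (fun _ => g) hdis
  simp only [hg] at h1
  have h2 : ∀ v ∈ Vb n s L, EX p (Om n) (fun E => g (E ∩ Sv F v)) =
      1 - η * (1 - (1 - p) ^ F.card) := by
    intro v hv
    have hv' := (Finset.mem_filter.1 hv).2
    have hsub : Sv F v ⊆ Om n := by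
      intro e he
      obtain ⟨h3, h4⟩ := mem_Sv.1 he
      refine Finset.mem_filter.2 ⟨Finset.mem_univ _, ?_⟩
      have h5 := hFs _ h3
      rw [h4, Fin.lt_def]
      omega
    have h3 := Pool.Agent.W571.RD.Pind.none p n (Sv F v) hsub
    rw [Pr_eq, card_Sv] at h3
    have h4 : ∀ E : Finset (Fin n × Fin n), g (E ∩ Sv F v) =
        1 * x + η * ind (E ∩ Sv F v = ∅) := by
      intro E
      simp only [g, ind]
      split_ifs
      · rw [hx]; ring
      · ring
    simp only [h4]
    have h5 : EX p (Om n) (fun _ => (1 : ℝ) * x) = x := by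
      rw [EX_mul p (Om n) (fun _ => 1) x, EX_one, one_mul]
    have h6 : EX p (Om n) (fun E => η * ind (E ∩ Sv F v = ∅)) = η * (1 - p) ^ F.card := by
      rw [EX_mul' p (Om n) (fun E => ind (E ∩ Sv F v = ∅)) η, h3]
    rw [EX_add p (Om n) (fun _ => 1 * x) (fun E => η * ind (E ∩ Sv F v = ∅)), h5, h6, hx]
    ring
  rw [Finset.prod_congr rfl h2, Finset.prod_const, card_Vb hsL] at h1
  set q : ℝ := 1 - (1 - p) ^ F.card with hq
  have hq0 : 0 ≤ q := by
    rw [hq]
    have : (1 - p) ^ F.card ≤ 1 := pow_le_one₀ (by linarith) (by linarith)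
    linarith
  have hq1 : q ≤ 1 := by
    rw [hq]
    have : 0 ≤ (1 - p) ^ F.card := pow_nonneg (by linarith) _
    linarith
  have hqf : (1 - η / 2) * (p * f) ≤ q := by
    have h3 : (1 - p) ^ F.card ≤ Real.exp (-(p * f)) := by
      calc (1 - p) ^ F.card ≤ (Real.exp (-p)) ^ F.card :=
            pow_le_pow_left₀ (by linarith) (Real.one_sub_le_exp_neg p) _
        _ = Real.exp (-(p * F.card)) := by
            rw [← Real.exp_nat_mul]
            congr 1
            ring
        _ ≤ Real.exp (-(p * f)) := by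
            refine Real.exp_le_exp.2 ?_
            have := mul_le_mul_of_nonneg_left hfF hp.le
            linarith
    have hy : 0 ≤ p * f := by positivity
    have h4 := exp_quad hy
    have h5 : (p * f) * (p * f) ≤ (p * f) * η := mul_le_mul_of_nonneg_left hpf hy
    rw [hq]
    nlinarith
  have h3 : (1 - η * q) ^ L ≤ Real.exp (-(η * q * L)) := by
    have h4 : 0 ≤ 1 - η * q := by
      have : η * q ≤ 1 / 2 * 1 := mul_le_mul hη2 hq1 hq0 (by norm_num)
      linarith
    calc (1 - η * q) ^ L ≤ (Real.exp (-(η * q))) ^ L :=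
          pow_le_pow_left₀ h4 (Real.one_sub_le_exp_neg _) _
      _ = Real.exp (-(η * q * L)) := by
          rw [← Real.exp_nat_mul]
          congr 1
          ring
  -- Markov
  have h4 : Pr p n (fun E => (nb E F s (s + L) : ℝ) < t) ≤
      Real.exp (-(t * Real.log x)) * (1 - η * q) ^ L := by
    rw [Pr_eq, ← h1, ← EX_mul']
    refine EX_mono hp hp1 _ fun E => ?_
    have h5 : 0 < Real.exp (-(t * Real.log x)) * x ^ nb E F s (s + L) := by positivity
    by_cases h6 : (nb E F s (s + L) : ℝ) < t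
    · rw [ind_pos h6]
      have h7 : x ^ nb E F s (s + L) = Real.exp (nb E F s (s + L) * Real.log x) := by
        rw [Real.exp_nat_mul, Real.exp_log hx0]
      rw [h7, ← Real.exp_add]
      refine Real.one_le_exp ?_
      have h8 : Real.log x < 0 := Real.log_neg hx0 hx1
      have h9 : 0 < (t - nb E F s (s + L)) * (-Real.log x) :=
        mul_pos (by linarith) (by linarith)
      linarith
    · rw [ind_neg h6]
      exact h5.le
  refine h4.trans ?_
  calc Real.exp (-(t * Real.log x)) * (1 - η * q) ^ L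
      ≤ Real.exp (-(t * Real.log x)) * Real.exp (-(η * q * L)) :=
        mul_le_mul_of_nonneg_left h3 (Real.exp_pos _).le
    _ = Real.exp (-(t * Real.log x) + -(η * q * L)) := (Real.exp_add _ _).symm
    _ ≤ Real.exp (-(η ^ 2 * P / 4)) := by
        refine Real.exp_le_exp.2 ?_
        have h5 : 1 - x⁻¹ ≤ Real.log x := Real.one_sub_inv_le_log_of_pos hx0
        have h6 : -(t * Real.log x) ≤ t * (x⁻¹ - 1) := by
          have := mul_le_mul_of_nonneg_left h5 ht0
          linarith
        have h7 : (1 - 2 * η) * (x⁻¹ - 1) ≤ η * (1 - η) := by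
          have h8 : x⁻¹ - 1 = η / x := by
            rw [hx] at hx0 ⊢
            field_simp
            ring
          rw [h8, ← mul_div_assoc, div_le_iff₀ hx0, hx]
          nlinarith [mul_pos hη hη, mul_nonneg (mul_pos hη hη).le (show (0:ℝ) ≤ 1 - η by linarith)]
        have h8 : t * (x⁻¹ - 1) ≤ η * (1 - η) * P := by
          have h9 := mul_le_mul_of_nonneg_right h7 hP0
          rw [ht]
          linarith
        have h9 : η * ((1 - η / 2) * P) ≤ η * q * L := by
          have h10 : (1 - η / 2) * P ≤ q * L := by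
            have h11 := mul_le_mul_of_nonneg_right hqf hL0
            rw [hP]
            linarith
          have h12 := mul_le_mul_of_nonneg_left h10 hη.le
          linarith
        have h10 : 0 ≤ η ^ 2 * P := by positivity
        nlinarith

end

end Pool.Agent.H764.RL.Blk
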